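import Pool.Agent.Helper69.CS.St
import Pool.Agent.Helper69.CR.M_PF

/-!
# MP_3dd6d4_an, critical mode, `p > 4`: algebra of the operators `B_k`, `SS k`, `T_d`
-/

set_option autoImplicit false

open MeasureTheory Set Filter Topology
open scoped ENNReal

noncomputable section

namespace Helper26.P4

open Helper69.CR Helper69.CR.DB Helper69.CS

/-! ### the three term relation of `p_k` -/

/-- `P_i(k) = ∏_{j ≤ 2i} (k - i + j)` -/
def Pi (k : ℝ) : ℕ → ℝ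
  | 0 => k
  | i + 1 => Pi k i * (k ^ 2 - ((i : ℝ) + 1) ^ 2)

lemma Pi_zero (k : ℝ) : Pi k 0 = k := rfl

lemma Pi_succ (k : ℝ) (i : ℕ) : Pi k (i + 1) = Pi k i * (k ^ 2 - ((i : ℝ) + 1) ^ 2) := rfl

lemma Pi_add (k : ℝ) (i : ℕ) : Pi (k + 1) (i + 1) = (k + i + 1) * (k + i + 2) * Pi k i := by
  induction i with
  | zero =>
    rw [Pi_succ, Pi_zero, Pi_zero]
    push_cast
    ring
  | succ i ih =>
    rw [Pi_succ, ih, Pi_succ k i]
    push_cast
    ring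

lemma Pi_sub (k : ℝ) (i : ℕ) : Pi (k - 1) (i + 1) = (k - i - 1) * (k - i - 2) * Pi k i := by
  induction i with
  | zero =>
    rw [Pi_succ, Pi_zero, Pi_zero]
    push_cast
    ring
  | succ i ih =>
    rw [Pi_succ, ih, Pi_succ k i]
    push_cast
    ring

lemma Pi_vanish (k i : ℕ) (h : k ≤ i) : Pi (k : ℝ) i = 0 := by
  induction i with
  | zero =>
    rw [Pi_zero]
    have : k = 0 := by omega
    rw [this]
    norm_num
  | succ i ih =>
    rw [Pi_succ]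
    rcases Nat.lt_or_ge i k with h1 | h1
    · have : k = i + 1 := by omega
      rw [this]
      push_cast
      ring
    · rw [ih h1, zero_mul]

/-- the coefficient -/
def qc (k : ℝ) (i : ℕ) : ℝ := (-1) ^ i / ((i.factorial : ℝ) ^ 2) * Pi k i

lemma Pi_fact (k : ℕ) : ∀ i : ℕ, i < k →
    Pi (k : ℝ) i * ((k - 1 - i).factorial : ℝ) = ((k + i).factorial : ℝ) := by
  intro i
  induction i with
  | zero =>
    intro h
    obtain ⟨m, rfl⟩ : ∃ m, k = m + 1 := ⟨k - 1, by omega⟩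
    rw [Pi_zero]
    have e1 : m + 1 - 1 - 0 = m := by omega
    rw [e1, Nat.add_zero, Nat.factorial_succ]
    push_cast
    ring
  | succ i ih =>
    intro h
    have h1 := ih (by omega)
    obtain ⟨m, rfl⟩ : ∃ m, k = m + i + 2 := ⟨k - i - 2, by omega⟩
    have e1 : m + i + 2 - 1 - (i + 1) = m := by omega
    have e2 : m + i + 2 - 1 - i = m + 1 := by omega
    have e3 : m + i + 2 + (i + 1) = (m + i + 2 + i) + 1 := by omega
    rw [e2, Nat.factorial_succ m] at h1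
    rw [e1, e3, Nat.factorial_succ (m + i + 2 + i), Pi_succ]
    push_cast at h1 ⊢
    rw [← h1]
    ring

lemma pc_eq_qc (k i : ℕ) (h : i < k) : pc k i = qc k i := by
  unfold pc qc
  have h1 := Pi_fact k i h
  have h2 : ((k - 1 - i).factorial : ℝ) ≠ 0 := by exact_mod_cast (k - 1 - i).factorial_ne_zero
  have h3 : (i.factorial : ℝ) ≠ 0 := by exact_mod_cast i.factorial_ne_zero
  rw [← h1]
  field_simp

lemma pp_eq_qc (k M : ℕ) (h : k ≤ M) (s : ℝ) :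
    pp k s = ∑ i ∈ Finset.range M, qc k i * s ^ i := by
  unfold pp
  rw [← Finset.sum_subset (Finset.range_subset_range.2 h)]
  · refine Finset.sum_congr rfl fun i hi => ?_
    rw [pc_eq_qc k i (Finset.mem_range.1 hi)]
  · intro i _ hi
    have h1 : k ≤ i := by
      by_contra h2
      exact hi (Finset.mem_range.2 (by omega))
    unfold qc
    rw [Pi_vanish k i h1]
    ring

/-- `2 s p_k(s) = - k/(2k-1) p_{k-1}(s) + (4k²-2)/(4k²-1) p_k(s) - k/(2k+1) p_{k+1}(s)` -/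
theorem three_term (m : ℕ) (s : ℝ) :
    2 * s * pp (m + 1) s = -(((m : ℝ) + 1) / (2 * m + 1)) * pp m s +
      (4 * ((m : ℝ) + 1) ^ 2 - 2) / (4 * ((m : ℝ) + 1) ^ 2 - 1) * pp (m + 1) s -
      ((m : ℝ) + 1) / (2 * m + 3) * pp (m + 2) s := by
  rw [pp_eq_qc (m + 1) (m + 1) le_rfl s]
  have e0 : 2 * s * ∑ i ∈ Finset.range (m + 1), qc ((m + 1 : ℕ) : ℝ) i * s ^ i =
      ∑ i ∈ Finset.range (m + 1), 2 * qc ((m + 1 : ℕ) : ℝ) i * s ^ (i + 1) := by
    rw [Finset.mul_sum]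
    refine Finset.sum_congr rfl fun i _ => ?_
    ring
  rw [e0]
  have e1 : ∑ i ∈ Finset.range (m + 1), qc ((m + 1 : ℕ) : ℝ) i * s ^ i = pp (m + 1) s :=
    (pp_eq_qc (m + 1) (m + 1) le_rfl s).symm
  rw [e1, pp_eq_qc m (m + 2) (by omega) s, pp_eq_qc (m + 1) (m + 2) (by omega) s,
    pp_eq_qc (m + 2) (m + 2) le_rfl s, Finset.mul_sum, Finset.mul_sum, Finset.mul_sum,
    ← Finset.sum_add_distrib, ← Finset.sum_sub_distrib, Finset.sum_range_succ' _ (m + 1)]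
  have h1 : (2 : ℝ) * m + 1 ≠ 0 := by positivity
  have h2 : (2 : ℝ) * m + 3 ≠ 0 := by positivity
  have h3 : 4 * ((m : ℝ) + 1) ^ 2 - 1 ≠ 0 := by
    have : 4 * ((m : ℝ) + 1) ^ 2 - 1 = (2 * m + 1) * (2 * m + 3) := by ring
    rw [this]
    exact mul_ne_zero h1 h2
  have hc : (4 * ((m : ℝ) + 1) ^ 2 - 2) / (4 * ((m : ℝ) + 1) ^ 2 - 1) =
      1 - 1 / ((2 * m + 1) * (2 * m + 3)) := by
    have : 4 * ((m : ℝ) + 1) ^ 2 - 1 = (2 * m + 1) * (2 * m + 3) := by ring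
    rw [← this]
    field_simp
    ring
  have z0 : -(((m : ℝ) + 1) / (2 * m + 1)) * (qc (m : ℝ) 0 * s ^ 0) +
      (4 * ((m : ℝ) + 1) ^ 2 - 2) / (4 * ((m : ℝ) + 1) ^ 2 - 1) * (qc ((m + 1 : ℕ) : ℝ) 0 * s ^ 0) -
      ((m : ℝ) + 1) / (2 * m + 3) * (qc ((m + 2 : ℕ) : ℝ) 0 * s ^ 0) = 0 := by
    unfold qc
    simp only [pow_zero, Nat.factorial_zero, Nat.cast_one, one_pow, div_one, one_mul, mul_one]
    rw [Pi_zero, Pi_zero, Pi_zero, hc]
    push_cast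
    field_simp
    ring
  rw [z0, add_zero]
  refine Finset.sum_congr rfl fun i _ => ?_
  have hA := Pi_add ((m : ℝ) + 1) i
  have hB := Pi_sub ((m : ℝ) + 1) i
  have hC := Pi_succ ((m : ℝ) + 1) i
  have hf : (i.factorial : ℝ) ≠ 0 := by exact_mod_cast i.factorial_ne_zero
  have e2 : (m : ℝ) + 1 + 1 = ((m + 2 : ℕ) : ℝ) := by push_cast; ring
  have e3 : (m : ℝ) + 1 - 1 = (m : ℝ) := by ring
  rw [e2] at hA
  rw [e3] at hB
  unfold qc
  push_cast at hA ⊢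
  rw [hA, hB, hC, Nat.factorial_succ, hc]
  push_cast
  field_simp
  ring

/-! ### numbers -/

lemma Cn_succ (k : ℕ) (a : ℝ) : Cn (k + 1) a = Cn k a * (((k : ℝ) + 1 - a) / (k + a)) := by
  unfold Cn
  rw [Finset.prod_range_succ]

/-- the symbol of `2 s p_k(s)` is negative on the real axis -/
lemma sig_eq (m : ℕ) (b : ℝ) (h0 : 0 < b) :
    -(((m : ℝ) + 1) / (2 * m + 1)) * Cn m b +
      (4 * ((m : ℝ) + 1) ^ 2 - 2) / (4 * ((m : ℝ) + 1) ^ 2 - 1) * Cn (m + 1) b -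
      ((m : ℝ) + 1) / (2 * m + 3) * Cn (m + 2) b =
      -(2 * b ^ 2 / ((m + b) * (m + 1 + b))) * Cn m b := by
  rw [Cn_succ (m + 1) b, Cn_succ m b]
  have h1 : (2 : ℝ) * m + 1 ≠ 0 := by positivity
  have h2 : (2 : ℝ) * m + 3 ≠ 0 := by positivity
  have hc : (4 * ((m : ℝ) + 1) ^ 2 - 2) / (4 * ((m : ℝ) + 1) ^ 2 - 1) =
      1 - 1 / ((2 * m + 1) * (2 * m + 3)) := by
    have e : 4 * ((m : ℝ) + 1) ^ 2 - 1 = (2 * m + 1) * (2 * m + 3) := by ring
    have h3 : 4 * ((m : ℝ) + 1) ^ 2 - 1 ≠ 0 := by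
      rw [e]
      exact mul_ne_zero h1 h2
    rw [← e]
    field_simp
    ring
  rw [hc]
  have h4 : (m : ℝ) + b ≠ 0 := by positivity
  have h5 : (m : ℝ) + 1 + b ≠ 0 := by positivity
  push_cast
  field_simp
  ring

/-! ### the operators -/

lemma int_gen (φ : ℝ → ℝ) (hφ : Continuous φ) {v : ℝ → ℂ} (hv : NB v) (y : ℝ) :
    IntegrableOn (fun u : ℝ => ((φ u : ℝ) : ℂ) * v (y + u)) (Ioi 0) := by
  obtain ⟨c, M, h⟩ := hv
  have hc : Continuous (fun u : ℝ => ((φ u : ℝ) : ℂ) * v (y + u)) :=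
    (Complex.continuous_ofReal.comp hφ).mul (c.comp (by fun_prop))
  have h1 : IntegrableOn (fun u : ℝ => ((φ u : ℝ) : ℂ) * v (y + u))
      (Ioc 0 (max 0 (M - y))) := (hc.integrableOn_Icc).mono_set Ioc_subset_Icc_self
  have h2 : IntegrableOn (fun u : ℝ => ((φ u : ℝ) : ℂ) * v (y + u))
      (Ioi (max 0 (M - y))) := by
    refine (integrableOn_zero (μ := volume) (s := Ioi (max 0 (M - y)))).congr_fun (fun u hu => ?_)
      measurableSet_Ioi
    have hu' : max 0 (M - y) < u := hu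
    have h3 : M ≤ y + u := by
      have := le_max_right 0 (M - y)
      linarith
    rw [h _ h3, mul_zero]
  have h3 := h1.union h2
  rwa [Ioc_union_Ioi_eq_Ioi (le_max_left _ _)] at h3

lemma pp_cont (k : ℕ) : Continuous (pp k) := by
  unfold pp
  fun_prop

lemma smul_cont (c : ℝ) {F : ℝ → ℂ} (hF : Continuous F) : Continuous fun y => c • F y :=
  hF.const_smul c

lemma int3 {μ : Measure ℝ} {A B C : ℝ → ℂ} (hA : Integrable A μ) (hB : Integrable B μ)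
    (hC : Integrable C μ) :
    ∫ u, (A u + B u + C u) ∂μ = ∫ u, A u ∂μ + ∫ u, B u ∂μ + ∫ u, C u ∂μ := by
  have h := integral_add (hA.add hB) hC
  simp only [Pi.add_apply] at h
  rw [h, integral_add hA hB]

lemma Bop_RR (k : ℕ) {v : ℝ → ℂ} (hv : NB v) (y : ℝ) :
    Bop k v y = (-1) ^ k * v y + ∑ i ∈ Finset.range k, ((pc k i : ℝ) : ℂ) * RR i v y := by
  unfold Bop RR
  congr 1
  have e : ∀ i ∈ Finset.range k, IntegrableOn
      (fun u : ℝ => ((pc k i : ℝ) : ℂ) * ((Real.exp (-(i : ℝ) * u) : ℂ) * v (y + u))) (Ioi 0) :=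
    fun i _ => (int_NB i hv y).const_mul _
  rw [Finset.sum_congr rfl fun i _ => (integral_const_mul ((pc k i : ℝ) : ℂ)
    (fun u : ℝ => (Real.exp (-(i : ℝ) * u) : ℂ) * v (y + u))).symm, ← integral_finset_sum _ e]
  congr 1
  funext u
  unfold pp
  rw [Complex.ofReal_sum, Finset.sum_mul]
  refine Finset.sum_congr rfl fun i _ => ?_
  rw [← Real.exp_nat_mul]
  push_cast
  rw [mul_assoc]
  congr 3
  ring_nf

lemma Bop_cont (k : ℕ) {v : ℝ → ℂ} (hv : NB v) : Continuous (Bop k v) := by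
  have e : Bop k v = fun y => (-1) ^ k * v y +
      ∑ i ∈ Finset.range k, ((pc k i : ℝ) : ℂ) * RR i v y := funext fun y => Bop_RR k hv y
  rw [e]
  refine (continuous_const.mul hv.1).add (continuous_finset_sum _ fun i _ => ?_)
  exact continuous_const.mul (NB_RR' i hv).1

lemma lap_real (k : ℕ) (b : ℝ) (hb : 0 < b) :
    IntegrableOn (fun u : ℝ => pp k (Real.exp (-u)) * Real.exp (-(b * u))) (Ioi 0) ∧
    (-1) ^ k + ∫ u in Ioi (0 : ℝ), pp k (Real.exp (-u)) * Real.exp (-(b * u)) = Cn k b := by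
  obtain ⟨h1, h2, -, h4⟩ := hPF
  have hre : 0 < ((b : ℝ) : ℂ).re := by simpa using hb
  obtain ⟨i1, i2⟩ := h2 k (b : ℂ) hre
  have e1 : (fun v : ℝ => ((pp k (Real.exp (-v)) : ℝ) : ℂ) * Complex.exp (-(v : ℂ) * (b : ℂ))) =
      fun v : ℝ => ((pp k (Real.exp (-v)) * Real.exp (-(b * v)) : ℝ) : ℂ) := by
    funext v
    push_cast
    congr 2
    ring
  rw [e1] at i1 i2
  refine ⟨?_, ?_⟩
  · exact i1.re
  · have h5 := h1 k (b : ℂ) hre
    rw [← i2, h4 k b, integral_complex_ofReal] at h5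
    have h6 : ((Cn k b : ℝ) : ℂ) = (((-1) ^ k +
        ∫ u in Ioi (0 : ℝ), pp k (Real.exp (-u)) * Real.exp (-(b * u)) : ℝ) : ℂ) := by
      rw [h5]
      push_cast
      rfl
    exact (Complex.ofReal_injective h6).symm

lemma kapb_eq (n : ℕ) (ν : ℕ → ℝ → ℝ) (hN : NN n ν) (b x : ℝ) (hb : 0 < b) :
    kapb n b x = ∑ k ∈ Finset.range (2 * n), ν k x * Cn k b := by
  unfold kapb
  have e1 : ∀ u : ℝ, pp n (Real.exp (-u)) * pp n (Real.exp (-u) * x) * Real.exp (-(b * u)) =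
      ∑ k ∈ Finset.range (2 * n), ν k x * (pp k (Real.exp (-u)) * Real.exp (-(b * u))) := by
    intro u
    rw [hN.exp, Finset.sum_mul]
    refine Finset.sum_congr rfl fun k _ => ?_
    ring
  simp only [e1]
  rw [integral_finset_sum _ fun k _ => ((lap_real k b hb).1).const_mul (ν k x), hN.alt,
    ← Finset.sum_add_distrib]
  refine Finset.sum_congr rfl fun k _ => ?_
  rw [integral_const_mul, ← (lap_real k b hb).2]
  ring

lemma TT_eq (n : ℕ) (ν : ℕ → ℝ → ℝ) (hN : NN n ν) (d : ℝ) {v : ℝ → ℂ} (hv : NB v) (y : ℝ) :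
    TT n d v y = ∑ k ∈ Finset.range (2 * n), ν k (Real.exp (-d)) • Bop k v y := by
  unfold TT Bop
  have e1 : ∀ u : ℝ, ((pp n (Real.exp (-u)) * pp n (Real.exp (-u) * Real.exp (-d)) : ℝ) : ℂ) *
      v (y + u) = ∑ k ∈ Finset.range (2 * n),
        ((ν k (Real.exp (-d)) : ℝ) : ℂ) * (((pp k (Real.exp (-u)) : ℝ) : ℂ) * v (y + u)) := by
    intro u
    rw [hN.exp, Complex.ofReal_sum, Finset.sum_mul]
    refine Finset.sum_congr rfl fun k _ => ?_
    push_cast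
    ring
  simp only [e1]
  rw [integral_finset_sum _ fun k _ => (int_gen (fun u => pp k (Real.exp (-u)))
    ((pp_cont k).comp (by fun_prop)) hv y).const_mul _, hN.alt, Complex.ofReal_sum,
    Finset.sum_mul, ← Finset.sum_add_distrib]
  refine Finset.sum_congr rfl fun k _ => ?_
  rw [integral_const_mul, Complex.real_smul]
  push_cast
  ring

lemma SS_eq (k : ℕ) (hk : 1 ≤ k) {v : ℝ → ℂ} (hv : NB v) (y : ℝ) :
    SS k v y = (-((k : ℝ) / (2 * k - 1))) • Bop (k - 1) v y +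
      ((4 * (k : ℝ) ^ 2 - 2) / (4 * (k : ℝ) ^ 2 - 1)) • Bop k v y +
      (-((k : ℝ) / (2 * k + 1))) • Bop (k + 1) v y := by
  obtain ⟨m, rfl⟩ : ∃ m, k = m + 1 := ⟨k - 1, by omega⟩
  rw [Nat.add_sub_cancel]
  have h1 : (2 : ℝ) * m + 1 ≠ 0 := by positivity
  have h2 : (2 : ℝ) * m + 3 ≠ 0 := by positivity
  have e3 : 4 * ((m : ℝ) + 1) ^ 2 - 1 = (2 * m + 1) * (2 * m + 3) := by ring
  have hc : (4 * ((m : ℝ) + 1) ^ 2 - 2) / (4 * ((m : ℝ) + 1) ^ 2 - 1) =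
      1 - 1 / ((2 * m + 1) * (2 * m + 3)) := by
    have h3 : 4 * ((m : ℝ) + 1) ^ 2 - 1 ≠ 0 := by
      rw [e3]
      exact mul_ne_zero h1 h2
    rw [← e3]
    field_simp
    ring
  have ea : 2 * ((m + 1 : ℕ) : ℝ) - 1 = 2 * m + 1 := by push_cast; ring
  have eb : 2 * ((m + 1 : ℕ) : ℝ) + 1 = 2 * m + 3 := by push_cast; ring
  have ec : ((m + 1 : ℕ) : ℝ) = (m : ℝ) + 1 := by push_cast; ring
  rw [ea, eb, ec]
  set α : ℝ := ((m : ℝ) + 1) / (2 * m + 1) with hα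
  set γ : ℝ := (4 * ((m : ℝ) + 1) ^ 2 - 2) / (4 * ((m : ℝ) + 1) ^ 2 - 1) with hγ
  set β : ℝ := ((m : ℝ) + 1) / (2 * m + 3) with hβ
  have hsum : α + γ + β = 2 := by
    rw [hα, hβ, hc]
    field_simp
    ring
  have i0 := int_gen (fun u => pp m (Real.exp (-u))) ((pp_cont m).comp (by fun_prop)) hv y
  have i1 := int_gen (fun u => pp (m + 1) (Real.exp (-u))) ((pp_cont (m + 1)).comp (by fun_prop)) hv y
  have i2 := int_gen (fun u => pp (m + 2) (Real.exp (-u))) ((pp_cont (m + 2)).comp (by fun_prop)) hv y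
  unfold SS Bop
  simp only [Complex.real_smul]
  have e4 : (2 : ℂ) * ∫ u in Ioi (0 : ℝ),
      ((Real.exp (-u) * pp (m + 1) (Real.exp (-u)) : ℝ) : ℂ) * v (y + u) =
      ((-α : ℝ) : ℂ) * (∫ u in Ioi (0 : ℝ), ((pp m (Real.exp (-u)) : ℝ) : ℂ) * v (y + u)) +
      ((γ : ℝ) : ℂ) * (∫ u in Ioi (0 : ℝ), ((pp (m + 1) (Real.exp (-u)) : ℝ) : ℂ) * v (y + u)) +
      ((-β : ℝ) : ℂ) * ∫ u in Ioi (0 : ℝ), ((pp (m + 2) (Real.exp (-u)) : ℝ) : ℂ) * v (y + u) := by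
    rw [← integral_const_mul, ← integral_const_mul, ← integral_const_mul, ← integral_const_mul,
      ← int3 (i0.const_mul _) (i1.const_mul _) (i2.const_mul _)]
    congr 1
    funext u
    have h := three_term m (Real.exp (-u))
    have h' : ((2 * Real.exp (-u) * pp (m + 1) (Real.exp (-u)) : ℝ) : ℂ) =
        ((-α * pp m (Real.exp (-u)) + γ * pp (m + 1) (Real.exp (-u)) -
          β * pp (m + 2) (Real.exp (-u)) : ℝ) : ℂ) := by
      rw [h]
    push_cast at h' ⊢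
    linear_combination v (y + u) * h'
  have hsum' : ((α : ℝ) : ℂ) + (γ : ℝ) + (β : ℝ) = 2 := by exact_mod_cast hsum
  rw [mul_add, e4, pow_succ ((-1 : ℂ)) (m + 1), pow_succ ((-1 : ℂ)) m]
  push_cast
  linear_combination ((-1 : ℂ) ^ m * v y) * hsum'

lemma SS_cont (k : ℕ) (hk : 1 ≤ k) {v : ℝ → ℂ} (hv : NB v) : Continuous (SS k v) := by
  rw [show SS k v = _ from funext fun y => SS_eq k hk hv y]
  exact ((smul_cont _ (Bop_cont _ hv)).add (smul_cont _ (Bop_cont _ hv))).add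
    (smul_cont _ (Bop_cont _ hv))

/-! ### summation -/

/-- the coefficient of `B_j` -/
def cc (ν ρ : ℕ → ℝ) (j : ℕ) : ℝ :=
  ν j + (4 * (j : ℝ) ^ 2 - 2) / (4 * (j : ℝ) ^ 2 - 1) * ρ j -
    ((j : ℝ) + 1) / (2 * j + 1) * ρ (j + 1) - ((j : ℝ) - 1) / (2 * j - 1) * ρ (j - 1)

lemma shift_sum {E : Type*} [AddCommGroup E] [Module ℝ E] (n : ℕ) (hn : 1 ≤ n) (ν ρ : ℕ → ℝ)
    (h0 : ρ 0 = 0) (hh : ∀ k, 2 * n - 1 ≤ k → ρ k = 0) (F : ℕ → E) :
    ∑ k ∈ Finset.range (2 * n), ν k • F k +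
    ∑ k ∈ Finset.range (2 * n), ρ k • ((-((k : ℝ) / (2 * k - 1))) • F (k - 1) +
      ((4 * (k : ℝ) ^ 2 - 2) / (4 * (k : ℝ) ^ 2 - 1)) • F k +
      (-((k : ℝ) / (2 * k + 1))) • F (k + 1)) =
    ∑ j ∈ Finset.range (2 * n), cc ν ρ j • F j := by
  obtain ⟨K, hK⟩ : ∃ K, 2 * n = K + 1 := ⟨2 * n - 1, by omega⟩
  have s1 : ∑ k ∈ Finset.range (2 * n), (ρ k * (-((k : ℝ) / (2 * k - 1)))) • F (k - 1) =
      ∑ j ∈ Finset.range (2 * n), (-(((j : ℝ) + 1) / (2 * j + 1) * ρ (j + 1))) • F j := by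
    rw [hK, Finset.sum_range_succ', Finset.sum_range_succ _ K, h0, hh (K + 1) (by omega)]
    simp only [zero_mul, zero_smul, mul_zero, neg_zero, add_zero]
    refine Finset.sum_congr rfl fun j _ => ?_
    rw [Nat.add_sub_cancel]
    congr 1
    push_cast
    have : 2 * ((j : ℝ) + 1) - 1 = 2 * j + 1 := by ring
    rw [this]
    ring
  have s2 : ∑ k ∈ Finset.range (2 * n), (ρ k * (-((k : ℝ) / (2 * k + 1)))) • F (k + 1) =
      ∑ j ∈ Finset.range (2 * n), (-(((j : ℝ) - 1) / (2 * j - 1) * ρ (j - 1))) • F j := by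
    rw [hK, Finset.sum_range_succ _ K, Finset.sum_range_succ', hh K (by omega)]
    simp only [zero_mul, zero_smul, add_zero, Nat.zero_sub, h0, mul_zero, neg_zero]
    refine Finset.sum_congr rfl fun j _ => ?_
    rw [Nat.add_sub_cancel]
    congr 1
    push_cast
    have e : 2 * ((j : ℝ) + 1) - 1 = 2 * j + 1 := by ring
    have e' : (j : ℝ) + 1 - 1 = j := by ring
    rw [e, e']
    ring
  have s3 : ∀ k : ℕ, ρ k • ((-((k : ℝ) / (2 * k - 1))) • F (k - 1) +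
      ((4 * (k : ℝ) ^ 2 - 2) / (4 * (k : ℝ) ^ 2 - 1)) • F k +
      (-((k : ℝ) / (2 * k + 1))) • F (k + 1)) =
      (ρ k * (-((k : ℝ) / (2 * k - 1)))) • F (k - 1) +
      ((4 * (k : ℝ) ^ 2 - 2) / (4 * (k : ℝ) ^ 2 - 1) * ρ k) • F k +
      (ρ k * (-((k : ℝ) / (2 * k + 1)))) • F (k + 1) := by
    intro k
    rw [smul_add, smul_add, smul_smul, smul_smul, smul_smul, mul_comm (ρ k) (_ / _)]
  simp only [s3]
  rw [Finset.sum_add_distrib, Finset.sum_add_distrib, s1, s2, ← Finset.sum_add_distrib,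
    ← Finset.sum_add_distrib, ← Finset.sum_add_distrib]
  refine Finset.sum_congr rfl fun j _ => ?_
  rw [← add_smul, ← add_smul, ← add_smul]
  congr 1
  unfold cc
  ring

/-! ### norms -/

lemma Nm_sum {r : ℝ} (hr : 1 ≤ r) (S : Finset ℕ) (F : ℕ → ℝ → ℂ)
    (hF : ∀ k ∈ S, Continuous (F k)) :
    Nm r (fun y => ∑ k ∈ S, F k y) ≤ ∑ k ∈ S, Nm r (F k) := by
  unfold Nm
  have e : (fun y => ∑ k ∈ S, F k y) = ∑ k ∈ S, F k := by
    funext y
    rw [Finset.sum_apply]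
  rw [e]
  refine eLpNorm_sum_le (fun k hk => (hF k hk).aestronglyMeasurable) ?_
  rw [← ENNReal.ofReal_one]
  exact ENNReal.ofReal_le_ofReal hr

lemma Nm_smul (r c : ℝ) (v : ℝ → ℂ) :
    Nm r (fun y => c • v y) = ENNReal.ofReal |c| * Nm r v := by
  unfold Nm
  have h := eLpNorm_const_smul c v (ENNReal.ofReal r) mu
  have e : ‖c‖ₑ = ENNReal.ofReal |c| := by
    rw [← ofReal_norm, Real.norm_eq_abs]
  rw [e] at h
  exact h

end Helper26.P4
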